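import Mathlib

/-!
# The upper broadcast number is not monotone under isometric subgraphs

`H` is a graph on the `8` vertices `0, ..., 7` of diameter `3` with `Γ_b(H) = 3`, and `G = H - 6` is
an isometric subgraph with a minimal dominating broadcast of cost `4`
(`f 7 = 2`, `f 1 = 1`, `f 5 = 1`).
-/

set_option autoImplicit false

namespace Pool.Agent.Results.MP_3951c0_co.IsometricMonotone

open Finset

/-- the eccentricity of a vertex -/
noncomputable def ecc {V : Type} [Fintype V] (G : SimpleGraph V) (v : V) : ℕ :=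
  Finset.univ.sup (fun u => G.dist v u)

/-- a broadcast: a function with values bounded by the eccentricities -/
def IsBroadcast {V : Type} [Fintype V] (G : SimpleGraph V) (f : V → ℕ) : Prop :=
  ∀ v, f v ≤ ecc G v

/-- every vertex `u` hears `f` from some vertex `v` -/
def IsDominating {V : Type} (G : SimpleGraph V) (f : V → ℕ) : Prop :=
  ∀ u, ∃ v, 0 < f v ∧ G.dist u v ≤ f v

/-- a minimal dominating broadcast -/
def IsMinDominating {V : Type} [Fintype V] (G : SimpleGraph V) (f : V → ℕ) : Prop :=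
  IsBroadcast G f ∧ IsDominating G f ∧
    ∀ g : V → ℕ, g ≠ f → (∀ v, g v ≤ f v) → ¬ IsDominating G g

/-- the upper broadcast number: the largest cost of a minimal dominating broadcast -/
noncomputable def upperBroadcast {V : Type} [Fintype V] (G : SimpleGraph V) : ℕ :=
  sSup {c | ∃ f : V → ℕ, IsMinDominating G f ∧ c = ∑ v, f v}

/-- the distance table -/
def T : List (List ℕ) :=
  [[0,2,2,2,1,1,2,1],[2,0,2,1,2,1,2,3],[2,2,0,1,1,1,1,3],[2,1,1,0,1,2,1,3],
   [1,2,1,1,0,2,1,2],[1,1,1,2,2,0,2,2],[2,2,1,1,1,2,0,3],[1,3,3,3,2,2,3,0]]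

/-- the distance of two vertices -/
def D (u v : ℕ) : ℕ := (T.getD u []).getD v 0

/-- the graph `H` -/
def H : SimpleGraph (Fin 8) where
  Adj u v := D u v = 1
  symm := ⟨by decide⟩
  loopless := ⟨by decide⟩

/-- the subgraph `G = H - 6` -/
def G : H.Subgraph := (⊤ : H.Subgraph).induce {v | v ≠ 6}

theorem dist_le_of_lip {V : Type} (K : SimpleGraph V) (d : V → V → ℕ) (h0 : ∀ u, d u u = 0)
    (hL : ∀ u a b, K.Adj a b → d u b ≤ d u a + 1) {u v : V} (p : K.Walk u v) :
    d u v ≤ p.length := by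
  induction p using SimpleGraph.Walk.concatRec with
  | Hnil => simp [h0]
  | Hconcat q h ih =>
    rw [SimpleGraph.Walk.length_concat]
    exact (hL _ _ _ h).trans (by omega)

theorem exists_walk {V : Type} (K : SimpleGraph V) (d : V → V → ℕ)
    (hS : ∀ u v, u ≠ v → ∃ w, K.Adj w v ∧ d u w + 1 = d u v) :
    ∀ (k : ℕ) (u v : V), d u v = k → ∃ p : K.Walk u v, p.length ≤ k := by
  intro k
  induction k with
  | zero =>
    intro u v h
    by_cases huv : u = v
    · subst huv
      exact ⟨SimpleGraph.Walk.nil, by simp⟩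
    · obtain ⟨w, -, hw⟩ := hS u v huv
      omega
  | succ k ih =>
    intro u v h
    by_cases huv : u = v
    · subst huv
      exact ⟨SimpleGraph.Walk.nil, by simp⟩
    · obtain ⟨w, hadj, hw⟩ := hS u v huv
      obtain ⟨p, hp⟩ := ih u w (by omega)
      refine ⟨p.concat hadj, ?_⟩
      rw [SimpleGraph.Walk.length_concat]
      omega

theorem dist_eq {V : Type} (K : SimpleGraph V) (d : V → V → ℕ) (h0 : ∀ u, d u u = 0)
    (hL : ∀ u a b, K.Adj a b → d u b ≤ d u a + 1)
    (hS : ∀ u v, u ≠ v → ∃ w, K.Adj w v ∧ d u w + 1 = d u v) (u v : V) :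
    K.Reachable u v ∧ K.dist u v = d u v := by
  obtain ⟨p, hp⟩ := exists_walk K d hS _ u v rfl
  refine ⟨⟨p⟩, le_antisymm ((SimpleGraph.dist_le p).trans hp) ?_⟩
  obtain ⟨q, hq⟩ := (show K.Reachable u v from ⟨p⟩).exists_walk_length_eq_dist
  rw [← hq]
  exact dist_le_of_lip K d h0 hL q

theorem H_dist (u v : Fin 8) : H.Reachable u v ∧ H.dist u v = D u v := by
  refine dist_eq H (fun u v => D u v) ?_ ?_ ?_ u v
  · decide
  · show ∀ u a b : Fin 8, D a b = 1 → D u b ≤ D u a + 1
    decide
  · show ∀ u v : Fin 8, u ≠ v → ∃ w : Fin 8, D w v = 1 ∧ D u w + 1 = D u v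
    decide

theorem G_adj (u v : G.verts) : G.coe.Adj u v ↔ D u.1 v.1 = 1 := by
  have hu : u.1 ≠ 6 := u.2
  have hv : v.1 ≠ 6 := v.2
  constructor
  · intro h
    have h2 : G.Adj u.1 v.1 := h
    exact G.adj_sub h2
  · intro h
    show G.Adj u.1 v.1
    exact ⟨hu, hv, h⟩

theorem G_dist (u v : G.verts) : G.coe.Reachable u v ∧ G.coe.dist u v = D u.1 v.1 := by
  refine dist_eq G.coe (fun u v => D u.1 v.1) ?_ ?_ ?_ u v
  · intro u
    exact (by decide : ∀ u : Fin 8, D u u = 0) u.1
  · intro u a b h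
    rw [G_adj] at h
    exact (by decide : ∀ u a b : Fin 8, D a b = 1 → D u b ≤ D u a + 1) u.1 a.1 b.1 h
  · intro u v huv
    have huv' : u.1 ≠ v.1 := fun h => huv (Subtype.ext h)
    obtain ⟨w, hw6, hw1, hw2⟩ := (by decide : ∀ u v : Fin 8, u ≠ 6 → v ≠ 6 → u ≠ v →
      ∃ w : Fin 8, w ≠ 6 ∧ D w v = 1 ∧ D u w + 1 = D u v) u.1 v.1 u.2 v.2 huv'
    exact ⟨⟨w, hw6⟩, (G_adj _ _).2 hw1, hw2⟩

/-! ### Upper bound for `H` -/

/-- check `P` on all lists bounded by the given list -/
def allL : List ℕ → (List ℕ → Bool) → Bool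
  | [], P => P []
  | b :: bs, P => (List.range (b + 1)).all fun x => allL bs fun l => P (x :: l)

theorem allL_spec : ∀ (bs : List ℕ) (P : List ℕ → Bool), allL bs P = true →
    ∀ l, List.Forall₂ (· ≤ ·) l bs → P l = true := by
  intro bs
  induction bs with
  | nil =>
    intro P h l hl
    cases hl
    exact h
  | cons b bs ih =>
    intro P h l hl
    cases hl with
    | cons h1 h2 =>
      rename_i x l'
      unfold allL at h
      rw [List.all_eq_true] at h
      have := h x (by simp; omega)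
      exact ih (fun l => P (x :: l)) this l' h2

/-- `u` hears from `v` -/
def hears (l : List ℕ) (u v : ℕ) : Bool :=
  Nat.blt 0 (l.getD v 0) && Nat.ble (D u v) (l.getD v 0)

/-- the conditions on a broadcast given as a list -/
def cond (l : List ℕ) : Bool :=
  ((List.range 8).all fun u => (List.range 8).any fun v => hears l u v) &&
  ((List.range 8).all fun v => Nat.ble (l.getD v 0) 0 ||
    (List.range 8).any fun p => (List.range 8).all fun w =>
      if w = v then (Nat.ble (l.getD v 0) (D p v) || Nat.ble (l.getD v 0) 1) else ! hears l p w)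

/-- the test -/
def test (l : List ℕ) : Bool := ! cond l || Nat.ble l.sum 3

theorem search : allL [1,2,2,2,1,1,2,2] test = true := by decide +kernel

theorem H_ecc_le (v : Fin 8) : ecc H v ≤ [2,3,3,3,2,2,3,3].getD v 0 := by
  refine Finset.sup_le fun u _ => ?_
  rw [(H_dist v u).2]
  exact (by decide : ∀ v u : Fin 8, D v u ≤ [2,3,3,3,2,2,3,3].getD v 0) v u

theorem getD_ofFn (f : Fin 8 → ℕ) (v : Fin 8) : (List.ofFn f).getD v 0 = f v := by
  have e : List.ofFn f = [f 0, f 1, f 2, f 3, f 4, f 5, f 6, f 7] := by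
    simp [List.ofFn_succ]
  rw [e]
  fin_cases v <;> rfl

theorem hears_iff (f : Fin 8 → ℕ) (u v : Fin 8) :
    hears (List.ofFn f) u v = true ↔ 0 < f v ∧ H.dist u v ≤ f v := by
  unfold hears
  rw [getD_ofFn, (H_dist u v).2, Bool.and_eq_true, Nat.ble_eq, Nat.blt_eq]

theorem cond_of_min (f : Fin 8 → ℕ) (hf : IsMinDominating H f) : cond (List.ofFn f) = true := by
  obtain ⟨-, hdom, hmin⟩ := hf
  unfold cond
  rw [Bool.and_eq_true, List.all_eq_true, List.all_eq_true]
  constructor
  · intro u hu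
    rw [List.mem_range] at hu
    obtain ⟨v, hv⟩ := hdom ⟨u, hu⟩
    rw [List.any_eq_true]
    exact ⟨v, by simp, (hears_iff f ⟨u, hu⟩ v).2 hv⟩
  · intro v hv
    rw [List.mem_range] at hv
    obtain ⟨v, rfl⟩ : ∃ v' : Fin 8, (v' : ℕ) = v := ⟨⟨v, hv⟩, rfl⟩
    rw [getD_ofFn, Bool.or_eq_true]
    by_cases h0 : f v = 0
    · left
      rw [Nat.ble_eq]
      omega
    · right
      have hnd := hmin (Function.update f v (f v - 1))
        (fun h => by
          have := congrFun h v
          rw [Function.update_self] at this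
          omega)
        (fun w => by
          by_cases hw : w = v
          · subst hw
            rw [Function.update_self]
            omega
          · rw [Function.update_of_ne hw])
      unfold IsDominating at hnd
      push Not at hnd
      obtain ⟨p, hp⟩ := hnd
      rw [List.any_eq_true]
      refine ⟨p, by simp, ?_⟩
      rw [List.all_eq_true]
      intro w hw
      rw [List.mem_range] at hw
      obtain ⟨w, rfl⟩ : ∃ w' : Fin 8, (w' : ℕ) = w := ⟨⟨w, hw⟩, rfl⟩
      by_cases hwv : w = v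
      · subst hwv
        rw [if_pos rfl, Bool.or_eq_true, Nat.ble_eq, Nat.ble_eq]
        by_contra hcon
        push Not at hcon
        have := hp w
        rw [Function.update_self, (H_dist p w).2] at this
        have := this (by omega)
        omega
      · rw [if_neg (fun h => hwv (Fin.ext h))]
        have := hp w
        rw [Function.update_of_ne hwv] at this
        rw [Bool.not_eq_true', Bool.eq_false_iff]
        intro hh
        rw [hears_iff] at hh
        have := this hh.1
        omega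

theorem H_upper (f : Fin 8 → ℕ) (hf : IsMinDominating H f) : ∑ v, f v ≤ 3 := by
  have hb : ∀ v, f v ≤ [2,3,3,3,2,2,3,3].getD v 0 := fun v => (hf.1 v).trans (H_ecc_le v)
  by_cases hcase : ∃ v, [2,3,3,3,2,2,3,3].getD (v : Fin 8) 0 ≤ f v
  · obtain ⟨v, hv⟩ := hcase
    have hpos : 0 < f v := lt_of_lt_of_le
      ((by decide : ∀ v : Fin 8, 0 < [2,3,3,3,2,2,3,3].getD v 0) v) hv
    have hg : (fun w => if w = v then f v else 0) = f := by
      by_contra hne
      refine hf.2.2 _ hne ?_ ?_
      · intro w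
        by_cases hw : w = v
        · subst hw
          simp
        · simp [hw]
      · intro u
        refine ⟨v, by simpa using hpos, ?_⟩
        rw [(H_dist u v).2]
        simp only [if_true]
        exact ((by decide : ∀ u v : Fin 8, D u v ≤ [2,3,3,3,2,2,3,3].getD v 0) u v).trans hv
    rw [← hg]
    rw [Finset.sum_ite_eq' Finset.univ v]
    rw [if_pos (Finset.mem_univ v)]
    exact (hb v).trans ((by decide : ∀ v : Fin 8, [2,3,3,3,2,2,3,3].getD v 0 ≤ 3) v)
  · push Not at hcase
    have ht : test (List.ofFn f) = true := by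
      refine allL_spec _ _ search _ ?_
      have h0 := hcase 0
      have h1 := hcase 1
      have h2 := hcase 2
      have h3 := hcase 3
      have h4 := hcase 4
      have h5 := hcase 5
      have h6 := hcase 6
      have h7 := hcase 7
      have e : List.ofFn f = [f 0, f 1, f 2, f 3, f 4, f 5, f 6, f 7] := by
        simp [List.ofFn_succ]
      rw [e]
      change f 0 < 2 at h0
      change f 1 < 3 at h1
      change f 2 < 3 at h2
      change f 3 < 3 at h3
      change f 4 < 2 at h4
      change f 5 < 2 at h5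
      change f 6 < 3 at h6
      change f 7 < 3 at h7
      simp only [List.forall₂_cons, List.forall₂_nil_left_iff, and_true]
      omega
    unfold test at ht
    rw [cond_of_min f hf, Bool.not_true, Bool.false_or, Nat.ble_eq, List.sum_ofFn] at ht
    exact ht

/-! ### Lower bound for `G` -/

/-- the broadcast of cost `4` on `G` -/
def F (v : ℕ) : ℕ := [0,1,0,0,0,1,0,2].getD v 0

instance : Fintype G.verts := inferInstanceAs (Fintype {v : Fin 8 // v ≠ 6})

theorem F_min : IsMinDominating G.coe (fun v => F v.1) := by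
  refine ⟨?_, ?_, ?_⟩
  · intro v
    obtain ⟨u, hu, h⟩ := (by decide : ∀ v : Fin 8, v ≠ 6 → ∃ u : Fin 8, u ≠ 6 ∧ F v ≤ D v u) v.1 v.2
    have h2 : G.coe.dist v ⟨u, hu⟩ ≤ ecc G.coe v :=
      Finset.le_sup (f := fun u => G.coe.dist v u) (Finset.mem_univ (⟨u, hu⟩ : G.verts))
    rw [(G_dist v ⟨u, hu⟩).2] at h2
    exact h.trans h2
  · intro u
    obtain ⟨v, hv, h1, h2⟩ := (by decide : ∀ u : Fin 8, u ≠ 6 →
      ∃ v : Fin 8, v ≠ 6 ∧ 0 < F v ∧ D u v ≤ F v) u.1 u.2
    refine ⟨⟨v, hv⟩, h1, ?_⟩
    rw [(G_dist _ _).2]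
    exact h2
  · intro g hne hle hdom
    obtain ⟨v, hv⟩ := Function.ne_iff.1 hne
    have hlt : g v < F v.1 := lt_of_le_of_ne (hle v) hv
    have hFv : 0 < F v.1 := by omega
    obtain ⟨p, hp6, hp⟩ := (by decide : ∀ v : Fin 8, v ≠ 6 → 0 < F v → ∃ p : Fin 8, p ≠ 6 ∧
      ∀ w : Fin 8, w ≠ 6 → if w = v then (F v ≤ D p v ∨ F v ≤ 1) else (F w = 0 ∨ F w < D p w))
      v.1 v.2 hFv
    obtain ⟨w, hw1, hw2⟩ := hdom ⟨p, hp6⟩
    rw [(G_dist _ _).2] at hw2
    have hpw := hp w.1 w.2
    have hgw := hle w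
    change g w ≤ F w.1 at hgw
    change D p w.1 ≤ g w at hw2
    by_cases hwv : w = v
    · subst hwv
      rw [if_pos rfl] at hpw
      omega
    · rw [if_neg (fun h => hwv (Subtype.ext h))] at hpw
      rcases hpw with h | h
      · omega
      · omega

theorem bddAbove_costs {V : Type} [Fintype V] (K : SimpleGraph V) :
    BddAbove {c | ∃ f : V → ℕ, IsMinDominating K f ∧ c = ∑ v, f v} := by
  refine ⟨∑ v, ecc K v, ?_⟩
  rintro c ⟨f, hf, rfl⟩
  exact Finset.sum_le_sum fun v _ => hf.1 v

/-- **Theorem.** There are connected graphs `G ⊆ H` with `G` an isometric subgraph of `H` and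
`Γ_b(H) < Γ_b(G)`. -/
theorem result : ∃ (H : SimpleGraph (Fin 8)) (G : H.Subgraph) (_ : Fintype G.verts),
    H.Connected ∧ G.coe.Connected ∧ (∀ u v : G.verts, G.coe.dist u v = H.dist u v) ∧
    upperBroadcast H < upperBroadcast G.coe := by
  refine ⟨H, G, inferInstance, ?_, ?_, ?_, ?_⟩
  · rw [SimpleGraph.connected_iff]
    exact ⟨fun u v => (H_dist u v).1, ⟨0⟩⟩
  · rw [SimpleGraph.connected_iff]
    exact ⟨fun u v => (G_dist u v).1, ⟨⟨0, (by decide : (0 : Fin 8) ≠ 6)⟩⟩⟩
  · intro u v
    rw [(G_dist u v).2, (H_dist u.1 v.1).2]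
  · have h1 : upperBroadcast H ≤ 3 := by
      refine csSup_le' ?_
      rintro c ⟨f, hf, rfl⟩
      exact H_upper f hf
    have h2 : 4 ≤ upperBroadcast G.coe := by
      refine le_csSup (bddAbove_costs _) ⟨fun v => F v.1, F_min, ?_⟩
      decide
    omega

end Pool.Agent.Results.MP_3951c0_co.IsometricMonotone
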